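import Pool.Agent.K4H88.RC.Main

/-!
# Hadwiger's conjecture for almost all Cayley graphs and for dense vertex-transitive graphs

1. Let `G` be a vertex-transitive graph with `n` vertices and degree at least `D`, which has an
   independent set with `a` elements, and let
   `6000 L n (1 + log a) √(1 + log n) ≤ D a`.
   Then `G` has a clique minor of order `L χ(G)`.  So a vertex-transitive graph with `D ≥ δ n` can
   violate Hadwiger's conjecture only if its independence number is `O(√(log n) log log n)`.
2. For all `L` and `ε > 0` and all finite groups `Γ` of order at least `n₀(L, ε)`: all but at most a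
   proportion `ε` of the connection sets `S` (sets without the identity and closed under inverses)
   have a Cayley graph with a clique minor of order `L χ`.  In particular almost all Cayley graphs
   of every large finite group, abelian or not, satisfy Hadwiger's conjecture.

Proof.  1. Translates of an independent set under automorphisms cover the graph efficiently, so
`χ ≤ 2 (n / a) (1 + log a)`; the theorem of Kostochka and Thomason gives the clique minor.
2. The bounded difference inequality and a union bound show that with high probability every set of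
`⌊log₂ n / 4⌋` vertices has a common non-neighbour; so there are independent sets of logarithmic
order, and 1. applies with `D ≥ n / 8`.
-/

set_option autoImplicit false

namespace Pool.Agent.Results.MP_b47bfb_co.AlmostAllCayleyGraphs

open Finset

/-- `K_k` is a minor of `G`: there are `k` pairwise disjoint vertex sets, each inducing a connected
subgraph, any two of them joined by an edge of `G`. -/
def HasCliqueMinor {V : Type} (G : SimpleGraph V) (k : ℕ) : Prop :=
  ∃ f : Fin k → Set V,
    (∀ i, (G.induce (f i)).Connected) ∧
    (∀ i j, i ≠ j → Disjoint (f i) (f j)) ∧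
    (∀ i j, i ≠ j → ∃ u ∈ f i, ∃ v ∈ f j, G.Adj u v)

/-- A clique minor of `L` times the order of the chromatic number (`L = 1`: Hadwiger's
conjecture for `G`). -/
def HadwigerTimes (L : ℕ) {V : Type} (G : SimpleGraph V) : Prop :=
  ∀ k : ℕ, ¬ G.Colorable k → HasCliqueMinor G (L * (k + 1))

/-- `G` is vertex-transitive. -/
def VertexTransitive {V : Type} (G : SimpleGraph V) : Prop :=
  ∀ x y : V, ∃ φ : G ≃g G, φ x = y

/-- The Cayley graph of `Γ` with connection set `S`. -/
def cayleyGraph {Γ : Type} [Group Γ] (S : Finset Γ) : SimpleGraph Γ where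
  Adj x y := x ≠ y ∧ (x⁻¹ * y ∈ S ∨ y⁻¹ * x ∈ S)
  symm := ⟨fun _ _ h => ⟨h.1.symm, h.2.symm⟩⟩
  loopless := ⟨fun _ h => h.1 rfl⟩

open Classical in
/-- The connection sets of `Γ`: the sets without the identity which are closed under inverses. -/
noncomputable def connectionSets (Γ : Type) [Group Γ] [Fintype Γ] : Finset (Finset Γ) :=
  univ.filter fun S => 1 ∉ S ∧ ∀ g ∈ S, g⁻¹ ∈ S

open Classical in
theorem result :
    (∀ (V : Type) [Fintype V] (G : SimpleGraph V), VertexTransitive G → ∀ (I : Finset V),
      I.Nonempty → (∀ x ∈ I, ∀ y ∈ I, ¬ G.Adj x y) → ∀ D L : ℕ,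
      (∀ x, D ≤ (univ.filter fun y => G.Adj x y).card) →
      6000 * (L : ℝ) * Fintype.card V * (1 + Real.log I.card) *
        Real.sqrt (1 + Real.log (Fintype.card V)) ≤ D * I.card →
      HadwigerTimes L G) ∧
    (∀ (L : ℕ) (ε : ℝ), 0 < ε → ∃ n₀ : ℕ, ∀ (Γ : Type) [Group Γ] [Fintype Γ],
      n₀ ≤ Fintype.card Γ →
      (((connectionSets Γ).filter fun S => ¬ HadwigerTimes L (cayleyGraph S)).card : ℝ) ≤
        ε * (connectionSets Γ).card) := by
  refine ⟨?_, ?_⟩
  · intro V _ G hG I hI0 hI D L hD hc
    exact Pool.Agent.K4H88.RC.trans_room hG I hI0 hI hD hc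
  · intro L ε hε
    obtain ⟨n₀, h⟩ := Pool.Agent.K4H88.RC.almost_all L hε
    refine ⟨n₀, fun Γ _ _ hn => ?_⟩
    have h1 := h Γ hn
    have e1 : connectionSets Γ = Pool.Agent.K4H88.RC.conns Γ := by
      ext S
      simp [connectionSets, Pool.Agent.K4H88.RC.conns, Pool.Agent.K4H88.RC.IsConn]
    rw [e1]
    convert h1 using 4
    exact Iff.rfl

end Pool.Agent.Results.MP_b47bfb_co.AlmostAllCayleyGraphs
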