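import Mathlib
import Pool.Agent.K4H13.GP.Arc

/-!
# Hadwiger's conjecture for graphs with bounded local biclique cover number

A graph has local biclique cover number at most `r` if its edge set is the union of complete
bipartite subgraphs such that every vertex lies in at most `r` of them.  Such graphs are in general
dense and have unbounded degeneracy; examples with `r = 2` are all line digraphs (arc graphs), so all
shift graphs and de Bruijn graphs.

* If `(8 r m)^r (1 - 2^(-r))^k < 1` and `G` is not `k`-colourable, then one of the bicliques of the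
  cover has at least `m` vertices on both sides; so `G` has a `K_{m+1}` minor, of order exponential in
  the chromatic number.
* So for each `r` Hadwiger's conjecture holds in full for all graphs of local biclique cover number at
  most `r` whose chromatic number is at least some `k₀(r)`.
* For underlying graphs of line digraphs the bound is explicit: if the graph is not `(n+1)`-colourable
  and `2 m ≤ C(n, ⌊n/2⌋) + 1`, then `K_{m+1}` is a minor.  So Q1 holds for `k ≥ 6` and Hadwiger's
  conjecture for `k ≥ 7`.

Proof.  If every biclique of the cover has a side with less than `m` vertices, the graph on the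
bicliques in which `i` and `j` are joined if `A i` meets `B j` on a small side is `O(r m)`-degenerate.
Its colour classes (doubled) are given subsets of a set of `k` colours which are `r`-independent (in
the case of line digraphs, an antichain and one additional colour).  A vertex takes a colour
which belongs to the subsets of all bicliques with the vertex on the side `A`, and to none of the
subsets of the bicliques with the vertex on the side `B`.
-/

set_option autoImplicit false

namespace Pool.Agent.Results.MP_b47bfb_co.BicliqueCovers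

/-- `K_k` is a minor of `G`: there are `k` pairwise disjoint vertex sets, each inducing a connected
subgraph, any two of them joined by an edge of `G`. -/
def HasCliqueMinor {V : Type} (G : SimpleGraph V) (k : ℕ) : Prop :=
  ∃ f : Fin k → Set V,
    (∀ i, (G.induce (f i)).Connected) ∧
    (∀ i j, i ≠ j → Disjoint (f i) (f j)) ∧
    (∀ i j, i ≠ j → ∃ u ∈ f i, ∃ v ∈ f j, G.Adj u v)

/-- The pairs `A i, B i` are the sides of complete bipartite subgraphs of `G` which cover all edges,
and every vertex of `G` lies in at most `r` of them. -/
structure LocalBicliqueCover {V I : Type} (G : SimpleGraph V) (A B : I → Set V) (r : ℕ) : Prop where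
  /-- the bicliques are subgraphs -/
  complete : ∀ i, ∀ x ∈ A i, ∀ y ∈ B i, G.Adj x y
  /-- every edge is covered -/
  covers : ∀ x y, G.Adj x y → ∃ i, (x ∈ A i ∧ y ∈ B i) ∨ (y ∈ A i ∧ x ∈ B i)
  /-- every vertex is in at most `r` bicliques -/
  bounded : ∀ x, {i | x ∈ A i ∨ x ∈ B i}.ncard ≤ r

/-- The underlying graph of the line digraph of the loopless digraph `D`: the vertices are the arcs
`p = (p.1, p.2)` of `D`, and two arcs are adjacent if the head of one of them is the tail of the
other. -/
def arcGraph {V : Type} (D : V → V → Prop) (hD : ∀ v, ¬ D v v) :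
    SimpleGraph {p : V × V // D p.1 p.2} where
  Adj p q := p.1.2 = q.1.1 ∨ q.1.2 = p.1.1
  symm := ⟨fun _ _ h => h.symm⟩
  loopless := ⟨fun p h => by
    have h' : p.1.2 = p.1.1 := h.elim id id
    have := p.2
    rw [h'] at this
    exact hD _ this⟩

/-- **Hadwiger's conjecture for graphs of bounded local biclique cover number.** -/
theorem result :
    (∀ r m k : ℕ, 0 < r → 0 < m →
      (8 * (r * m) : ℝ) ^ r * (1 - (1 / 2 : ℝ) ^ r) ^ k < 1 →
      ∀ (V I : Type) [Finite V] [Finite I] (G : SimpleGraph V) (A B : I → Set V),
        LocalBicliqueCover G A B r → ¬ G.Colorable k →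
        (∃ i, m ≤ (A i).ncard ∧ m ≤ (B i).ncard) ∧ HasCliqueMinor G (m + 1)) ∧
    (∀ r : ℕ, 0 < r → ∃ k₀ : ℕ, ∀ k : ℕ, k₀ ≤ k →
      ∀ (V I : Type) [Finite V] [Finite I] (G : SimpleGraph V) (A B : I → Set V),
        LocalBicliqueCover G A B r → ¬ G.Colorable k → HasCliqueMinor G (k + 1)) ∧
    (∀ (V : Type) [Finite V] (D : V → V → Prop) (hD : ∀ v, ¬ D v v),
      (∀ m n : ℕ, 0 < m → 2 * m ≤ n.choose (n / 2) + 1 → ¬ (arcGraph D hD).Colorable (n + 1) →
        HasCliqueMinor (arcGraph D hD) (m + 1)) ∧
      (∀ k : ℕ, 6 ≤ k → ¬ (arcGraph D hD).Colorable k → HasCliqueMinor (arcGraph D hD) k) ∧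
      (∀ k : ℕ, 7 ≤ k → ¬ (arcGraph D hD).Colorable k →
        HasCliqueMinor (arcGraph D hD) (k + 1))) := by
  have conv : ∀ {V I : Type} {G : SimpleGraph V} {A B : I → Set V} {r : ℕ},
      LocalBicliqueCover G A B r → Pool.Agent.K4H13.GP.Cover G A B r :=
    fun h => ⟨h.complete, h.covers, h.bounded⟩
  refine ⟨?_, ?_, ?_⟩
  · intro r m k hr hm h V I _ _ G A B hc hG
    exact ⟨Pool.Agent.K4H13.GP.cover_biclique hr hm (conv hc) h hG,
      Pool.Agent.K4H13.GP.cover_minor hr hm (conv hc) h hG⟩
  · intro r hr
    obtain ⟨k₀, h⟩ := Pool.Agent.K4H13.GP.cover_hadwiger r hr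
    exact ⟨k₀, fun k hk V I _ _ G A B hc hG => h k hk V I G A B (conv hc) hG⟩
  · intro V _ D hD
    exact ⟨fun m n hm hmn hG => Pool.Agent.K4H13.GP.arc_minor D hD m n hm hmn hG,
      fun k hk hG => Pool.Agent.K4H13.GP.arc_obo D hD k hk hG,
      fun k hk hG => Pool.Agent.K4H13.GP.arc_had D hD k hk hG⟩

end Pool.Agent.Results.MP_b47bfb_co.BicliqueCovers
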