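import Mathlib
import Pool.Agent.K4H13.GP.KT
import Pool.Agent.K4H13.GP.Strong

/-!
# Hadwiger's conjecture for graph products

Hadwiger's conjecture in full (`K_χ` is a minor, hence Q1) is proved

* for all direct (tensor, categorical) products `G × H` of two finite graphs, without any hypothesis;
* for the lexicographic product `G[H]` of a graph `G` with an edge and a graph `H` if
  `|V(H)| ≥ 2 χ(H)` and the conjecture holds for `G`, or `|V(H)| ≥ 3 χ(H)` and Q1 holds for `G`, or
  `|V(H)| ≥ χ(G) χ(H)`, or `|V(H)| ≥ 3600 χ(H) √(log (4 χ(G) χ(H)))`, where nothing is assumed on `G`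
  in the last two cases;
* for the strong product of two connected graphs with at least `3 χ(G) χ(H) - 2` vertices each.

Proof.  Direct products: if `G × H` is not `k`-colourable, then neither is `G` nor `H`, so there are a
vertex `v` of `G` and a vertex `w` of `H` with `k` neighbours each, and `{v} × N(w)` and `N(v) × {w}` are
the sides of a complete bipartite graph; it has a `K_{k+1}` minor.  Lexicographic products: the copies
`B × {x}` of the branch sets of a `K_m` model of `G` are paired such that the two members of a pair come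
from different branch sets; the last case uses the theorem of Kostochka and Thomason (from the
starting library), as a subgraph of `G[H]` has large average degree.  Strong products: a
connected graph on `n` vertices has a connected set `S` with a perfect matching such that all other
vertices have neighbours in `S`.  If both matchings have at least `n / 3` edges, a row and a column
of the product are made disjoint at their crossings with the help of the diagonals; if there are
`n / 3` vertices outside of `S` in one of the graphs, one uses rows over these vertices and columns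
over `S`.
-/

set_option autoImplicit false

namespace Pool.Agent.Results.MP_b47bfb_co.GraphProducts

/-- `K_k` is a minor of `G`: there are `k` pairwise disjoint vertex sets, each inducing a connected
subgraph, any two of them joined by an edge of `G`. -/
def HasCliqueMinor {V : Type} (G : SimpleGraph V) (k : ℕ) : Prop :=
  ∃ f : Fin k → Set V,
    (∀ i, (G.induce (f i)).Connected) ∧
    (∀ i j, i ≠ j → Disjoint (f i) (f j)) ∧
    (∀ i j, i ≠ j → ∃ u ∈ f i, ∃ v ∈ f j, G.Adj u v)

/-- Hadwiger's conjecture holds for `G`: if `G` is not `k`-colourable then `K_{k+1}` is a minor of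
`G`. -/
def Hadwiger {V : Type} (G : SimpleGraph V) : Prop :=
  ∀ k : ℕ, ¬ G.Colorable k → HasCliqueMinor G (k + 1)

/-- Q1 holds for `G`: if `G` is not `k`-colourable then `K_k` is a minor of `G`. -/
def OffByOne {V : Type} (G : SimpleGraph V) : Prop :=
  ∀ k : ℕ, ¬ G.Colorable k → HasCliqueMinor G k

/-- The direct product `G × H`: `(v, w)` and `(v', w')` are adjacent if `v v'` and `w w'` are
edges. -/
def directProduct {V W : Type} (G : SimpleGraph V) (H : SimpleGraph W) : SimpleGraph (V × W) where
  Adj x y := G.Adj x.1 y.1 ∧ H.Adj x.2 y.2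
  symm := ⟨fun _ _ h => ⟨h.1.symm, h.2.symm⟩⟩
  loopless := ⟨fun _ h => h.1.ne rfl⟩

/-- The lexicographic product `G[H]`: every vertex of `G` is replaced by a copy of `H`, and the copies
of adjacent vertices are completely joined. -/
def lexProduct {V W : Type} (G : SimpleGraph V) (H : SimpleGraph W) : SimpleGraph (V × W) where
  Adj x y := G.Adj x.1 y.1 ∨ (x.1 = y.1 ∧ H.Adj x.2 y.2)
  symm := ⟨fun _ _ h => h.imp (fun h => h.symm) (fun h => ⟨h.1.symm, h.2.symm⟩)⟩
  loopless := ⟨fun _ h => h.elim (fun h => h.ne rfl) (fun h => h.2.ne rfl)⟩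

/-- The strong product: two different pairs are adjacent if they are equal or adjacent in each of
the two coordinates. -/
def strongProduct {V W : Type} (G : SimpleGraph V) (H : SimpleGraph W) : SimpleGraph (V × W) where
  Adj x y := x ≠ y ∧ (x.1 = y.1 ∨ G.Adj x.1 y.1) ∧ (x.2 = y.2 ∨ H.Adj x.2 y.2)
  symm := ⟨fun _ _ h => ⟨h.1.symm, h.2.1.imp Eq.symm (fun h => h.symm),
    h.2.2.imp Eq.symm (fun h => h.symm)⟩⟩
  loopless := ⟨fun _ h => h.1 rfl⟩

/-- **Hadwiger's conjecture for direct, lexicographic and strong products.**  All graphs are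
finite; `a` and `b` are numbers with `χ(G) ≤ a` and `χ(H) ≤ b`. -/
theorem result :
    (∀ (V W : Type) [Finite V] [Finite W] (G : SimpleGraph V) (H : SimpleGraph W),
      Hadwiger (directProduct G H)) ∧
    (∀ (V W : Type) [Finite V] [Finite W] (G : SimpleGraph V) (H : SimpleGraph W),
      (∃ u v, G.Adj u v) →
      (∀ m : ℕ, 2 ≤ m → HasCliqueMinor G m →
        HasCliqueMinor (lexProduct G H) (m * Nat.card W / 2)) ∧
      ∀ a b : ℕ, G.Colorable a → H.Colorable b →
        ((Hadwiger G ∧ 2 * b ≤ Nat.card W) ∨ (OffByOne G ∧ 3 * b ≤ Nat.card W) ∨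
          a * b ≤ Nat.card W ∨
          3600 * b * Real.sqrt (Real.log (4 * a * b)) ≤ (Nat.card W : ℝ)) →
        Hadwiger (lexProduct G H)) ∧
    (∀ (V W : Type) [Finite V] [Finite W] (G : SimpleGraph V) (H : SimpleGraph W),
      G.Connected → H.Connected →
      (∀ n : ℕ, 2 ≤ n → n ≤ Nat.card V → n ≤ Nat.card W →
        HasCliqueMinor (strongProduct G H) ((n + 2) / 3)) ∧
      ∀ a b : ℕ, G.Colorable a → H.Colorable b →
        3 * (a * b) ≤ Nat.card V + 2 → 3 * (a * b) ≤ Nat.card W + 2 →
        Hadwiger (strongProduct G H)) := by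
  refine ⟨?_, ?_, ?_⟩
  · intro V W _ _ G H
    exact Pool.Agent.K4H13.GP.direct_had G H
  · intro V W _ _ G H he
    refine ⟨fun m hm h => Pool.Agent.K4H13.GP.lex_minor G H hm h, ?_⟩
    rintro a b ha hb (⟨h1, h2⟩ | ⟨h1, h2⟩ | h | h)
    · exact Pool.Agent.K4H13.GP.lex_had G H he h1 hb h2
    · exact Pool.Agent.K4H13.GP.lex_obo G H he h1 hb h2
    · exact Pool.Agent.K4H13.GP.lex_big G H he ha hb h
    · exact Pool.Agent.K4H13.GP.lex_log G H he ha hb h
  · intro V W _ _ G H hG hH
    refine ⟨fun n hn hV hW => Pool.Agent.K4H13.GP.strong_minor G H hG hH hn hV hW, ?_⟩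
    intro a b ha hb hV hW
    exact Pool.Agent.K4H13.GP.strong_had G H hG hH ha hb hV hW

end Pool.Agent.Results.MP_b47bfb_co.GraphProducts
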