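import Pool.Agent.K4H88.SP.Final

/-!
# Hadwiger's conjecture for strong products

The strong product of a family of graphs has the vectors of vertices as vertices; two different
vectors are adjacent if in every coordinate their entries are equal or adjacent.

1. Clique minors multiply under strong products, so the strong product of graphs which satisfy
   Hadwiger's conjecture satisfies Hadwiger's conjecture.
2. For every `K` there are `δ > 0` and `n₀` such that the following holds for all finite families of
   finite graphs in which at least `n₀` members, those with index in `A`, have chromatic number at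
   most `K` and larger than the clique number, and all other members satisfy Hadwiger's conjecture:
   the strong product has a clique minor of order `N χ`, `χ` its chromatic number, for every
   `N ≤ (1 + δ) ^ |A|`.  Nothing is assumed on clique minors of the members with index in `A`.
3. For every `K` there is `n₀` such that Hadwiger's conjecture holds for the `n`-th strong power of
   every finite graph of chromatic number at most `K`, for all `n ≥ n₀`.
4. An arbitrary finite graph `G₀` of chromatic number at most `q` becomes a graph which satisfies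
   Hadwiger's conjecture (again with room `(1 + δ) ^ n`) by a strong product with `n` graphs with at
   most `M` vertices and clique number less than chromatic number (for example with the `n`-th
   strong power of the cycle `C₅`) as soon as `n ≥ C (1 + log (1 + log q))`.

Proof.  Let `G` have chromatic number `j + 1` larger than its clique number.  If a vertex set of `G`
has average degree larger than `j`, there is a gain in the average degree.  Otherwise the
minimal non-`j`-colourable vertex sets are `j`-regular, pairwise disjoint and have at least `j + 2`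
elements, and this gives `j + 2` colourings with `j` colours such that every vertex is coloured in at
least `j + 1` of them; a covering argument gives a gain in the number of colours of products.  The
theorem of Kostochka and Thomason on clique minors in graphs of large average degree turns the
exponential gain into clique minors.  The gain in the average degree is small if the graph has large
connected sets; clique minors in products of three or more such graphs are found with rows and
columns.
-/

set_option autoImplicit false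

namespace Pool.Agent.Results.MP_b47bfb_co.StrongProducts

/-- `K_k` is a minor of `G`: there are `k` pairwise disjoint vertex sets, each inducing a connected
subgraph, any two of them joined by an edge of `G`. -/
def HasCliqueMinor {V : Type} (G : SimpleGraph V) (k : ℕ) : Prop :=
  ∃ f : Fin k → Set V,
    (∀ i, (G.induce (f i)).Connected) ∧
    (∀ i j, i ≠ j → Disjoint (f i) (f j)) ∧
    (∀ i j, i ≠ j → ∃ u ∈ f i, ∃ v ∈ f j, G.Adj u v)

/-- Hadwiger's conjecture for the graph `G`. -/
def Hadwiger {V : Type} (G : SimpleGraph V) : Prop :=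
  ∀ k : ℕ, ¬ G.Colorable k → HasCliqueMinor G (k + 1)

/-- The clique number of `G` is smaller than its chromatic number. -/
def CliqueLtChromatic {V : Type} (G : SimpleGraph V) : Prop :=
  ∃ k : ℕ, G.CliqueFree (k + 1) ∧ ¬ G.Colorable k

/-- The strong product of a family of graphs. -/
def strongPi {ι : Type} {V : ι → Type} (G : ∀ i, SimpleGraph (V i)) : SimpleGraph (∀ i, V i) where
  Adj x y := x ≠ y ∧ ∀ i, x i = y i ∨ (G i).Adj (x i) (y i)
  symm := ⟨fun _ _ h => ⟨h.1.symm, fun i => (h.2 i).imp Eq.symm SimpleGraph.Adj.symm⟩⟩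
  loopless := ⟨fun _ h => h.1 rfl⟩

/-- The strong product of two graphs. -/
def strong {V W : Type} (G : SimpleGraph V) (H : SimpleGraph W) : SimpleGraph (V × W) where
  Adj x y := x ≠ y ∧ (x.1 = y.1 ∨ G.Adj x.1 y.1) ∧ (x.2 = y.2 ∨ H.Adj x.2 y.2)
  symm := ⟨fun _ _ h => ⟨h.1.symm, h.2.1.imp Eq.symm SimpleGraph.Adj.symm,
    h.2.2.imp Eq.symm SimpleGraph.Adj.symm⟩⟩
  loopless := ⟨fun _ h => h.1 rfl⟩

open Pool.Agent.K4H88.SP Pool.Agent.TH507.Host in
theorem hasCliqueMinor_iff {V : Type} (G : SimpleGraph V) (k : ℕ) :
    HasCliqueMinor G k ↔ IsMinor (⊤ : SimpleGraph (Fin k)) G :=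
  Iff.rfl

open Pool.Agent.K4H88.SP in
theorem hadwiger_iff {V : Type} (G : SimpleGraph V) : Hadwiger G ↔ Room 1 G := by
  constructor
  · intro h k hk
    rw [one_mul]
    exact h k hk
  · intro h k hk
    have h1 := h k hk
    rwa [one_mul] at h1

theorem hadwiger_of_clique {V : Type} {G : SimpleGraph V} (h : ¬ CliqueLtChromatic G) :
    Hadwiger G := by
  intro k hk
  have h1 : ¬ G.CliqueFree (k + 1) := fun h' => h ⟨k, h', hk⟩
  rw [SimpleGraph.not_cliqueFree_iff_top_isContained] at h1
  obtain ⟨f⟩ := h1
  exact Pool.Agent.K4H88.SP.minor_inj f f.injective fun u v huv => f.toHom.map_adj huv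

theorem result :
    (∀ (ι : Type) [Fintype ι] (V : ι → Type) [∀ i, Finite (V i)] (G : ∀ i, SimpleGraph (V i)),
      (∀ m : ι → ℕ, (∀ i, HasCliqueMinor (G i) (m i)) →
        HasCliqueMinor (strongPi G) (∏ i, m i)) ∧
      ((∀ i, Hadwiger (G i)) → Hadwiger (strongPi G))) ∧
    (∀ K : ℕ, ∃ (δ : ℝ) (n₀ : ℕ), 0 < δ ∧
      ∀ (ι : Type) [Fintype ι] (V : ι → Type) [∀ i, Finite (V i)] (G : ∀ i, SimpleGraph (V i))
        (A : Finset ι), (∀ i ∈ A, (G i).Colorable K ∧ CliqueLtChromatic (G i)) →
        (∀ i, i ∉ A → Hadwiger (G i)) → n₀ ≤ A.card →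
        ∀ N : ℕ, (N : ℝ) ≤ (1 + δ) ^ A.card → ∀ k : ℕ, ¬ (strongPi G).Colorable k →
          HasCliqueMinor (strongPi G) (N * (k + 1))) ∧
    (∀ K : ℕ, ∃ n₀ : ℕ, ∀ (V : Type) [Finite V] (G : SimpleGraph V), G.Colorable K →
      ∀ (ι : Type) [Fintype ι], n₀ ≤ Fintype.card ι → Hadwiger (strongPi fun _ : ι => G)) ∧
    (∀ M : ℕ, ∃ δ C : ℝ, 0 < δ ∧ 0 < C ∧
      ∀ (ι : Type) [Fintype ι] (V : ι → Type) [∀ i, Finite (V i)] (G : ∀ i, SimpleGraph (V i)),
        (∀ i, Nat.card (V i) ≤ M ∧ CliqueLtChromatic (G i)) →
        ∀ (V₀ : Type) [Finite V₀] (G₀ : SimpleGraph V₀) (q : ℕ), 1 ≤ q → G₀.Colorable q →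
        C * (1 + Real.log (1 + Real.log q)) ≤ Fintype.card ι →
        ∀ N : ℕ, (N : ℝ) ≤ (1 + δ) ^ Fintype.card ι →
        ∀ k : ℕ, ¬ (strong G₀ (strongPi G)).Colorable k →
          HasCliqueMinor (strong G₀ (strongPi G)) (N * (k + 1))) := by
  classical
  refine ⟨?_, ?_, ?_, ?_⟩
  · intro ι _ V _ G
    have : ∀ i, Fintype (V i) := fun i => Fintype.ofFinite (V i)
    refine ⟨fun m hm => Pool.Agent.K4H88.SP.minor_pi_top hm le_rfl, fun h => ?_⟩
    rw [hadwiger_iff]
    exact Pool.Agent.K4H88.SP.room_pi fun i => (hadwiger_iff (G i)).1 (h i)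
  · intro K
    obtain ⟨δ, n₀, hδ, h⟩ := Pool.Agent.K4H88.SP.all_gap K
    refine ⟨δ, n₀, hδ, ?_⟩
    intro ι _ V _ G A hA hT hcard N hN k hk
    have : ∀ i, Fintype (V i) := fun i => Fintype.ofFinite (V i)
    have hc : Fintype.card {i // i ∈ A} = A.card := Fintype.card_coe A
    have h1 : Pool.Agent.K4H88.SP.Room N
        (Pool.Agent.K4H88.SP.strongPi fun i : {i // i ∈ A} => G i.1) :=
      h {i // i ∈ A} (fun i => V i.1) (fun i => G i.1) (fun i => (hA i.1 i.2).1)
        (fun i => (hA i.1 i.2).2) (by rw [hc]; exact hcard) N (by rw [hc]; exact hN)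
    have h2 : Pool.Agent.K4H88.SP.Room 1
        (Pool.Agent.K4H88.SP.strongPi fun i : {i // ¬ i ∈ A} => G i.1) :=
      Pool.Agent.K4H88.SP.room_pi fun i => (hadwiger_iff (G i.1)).1 (hT i.1 i.2)
    have h3 := Pool.Agent.K4H88.SP.room_prod
      (Pool.Agent.K4H88.SP.strongPi fun i : {i // i ∈ A} => G i.1).colorable_of_fintype
      (Pool.Agent.K4H88.SP.strongPi fun i : {i // ¬ i ∈ A} => G i.1).colorable_of_fintype h1 h2
    rw [mul_one] at h3
    exact Pool.Agent.K4H88.SP.room_iso (Pool.Agent.K4H88.SP.splitIso (fun i => i ∈ A) G) h3 k hk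
  · intro K
    obtain ⟨δ, n₀, hδ, h⟩ := Pool.Agent.K4H88.SP.all_gap K
    refine ⟨n₀, ?_⟩
    intro V _ G hG ι _ hcard
    have := Fintype.ofFinite V
    rw [hadwiger_iff]
    by_cases hgap : CliqueLtChromatic G
    · exact h ι (fun _ => V) (fun _ => G) (fun _ => hG) (fun _ => hgap) hcard 1 (by
        rw [Nat.cast_one]
        exact one_le_pow₀ (by linarith))
    · exact Pool.Agent.K4H88.SP.room_pi fun _ => (hadwiger_iff G).1 (hadwiger_of_clique hgap)
  · intro M
    obtain ⟨δ, C, h1, -, h3, h4⟩ := Pool.Agent.K4H88.SP.num (M + 1) (M + 1) (by omega) (by omega)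
    refine ⟨δ, C, h1, h3, ?_⟩
    intro ι _ V _ G hG V₀ _ G₀ q hq hcol hs N hN
    have : ∀ i, Fintype (V i) := fun i => Fintype.ofFinite (V i)
    have := Fintype.ofFinite V₀
    refine Pool.Agent.K4H88.SP.core G (K := M + 1) (M := M + 1) (by omega) (fun i => ?_)
      (fun i => (hG i).2) (fun i U _ => ?_) G₀ hcol (h4 _ q N hq hs hN)
    · refine (G i).colorable_of_fintype.mono ?_
      have := (hG i).1
      rw [Nat.card_eq_fintype_card] at this
      omega
    · have h5 := (hG i).1
      rw [Nat.card_eq_fintype_card] at h5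
      have h6 := Finset.card_le_univ U
      omega

end Pool.Agent.Results.MP_b47bfb_co.StrongProducts
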